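import Mathlib

/-!
# Kummer independence (module KL of MP_c563ae_ag)
-/

namespace Pool.Agent.helper97.BG

namespace KL

open Polynomial IntermediateField

section one

variable {F L : Type*} [Field F] [Field L] [Algebra F L] {p : ℕ} {x : L} {a : F}

theorem minp (hp : p.Prime) (hx : x ^ p = algebraMap F L a) (ha : ∀ b : F, b ^ p ≠ a) :
    minpoly F x = X ^ p - C a := by
  symm
  refine minpoly.eq_of_irreducible_of_monic (X_pow_sub_C_irreducible_of_prime hp ha) ?_
    (monic_X_pow_sub_C a hp.ne_zero)
  simp [hx]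

theorem minp_natDegree (hp : p.Prime) (hx : x ^ p = algebraMap F L a)
    (ha : ∀ b : F, b ^ p ≠ a) : (minpoly F x).natDegree = p := by
  rw [minp hp hx ha, natDegree_X_pow_sub_C]

theorem integral (hp : p.Prime) (hx : x ^ p = algebraMap F L a) : IsIntegral F x :=
  ⟨X ^ p - C a, monic_X_pow_sub_C a hp.ne_zero, by simp [hx]⟩

theorem indep (hp : p.Prime) (hx : x ^ p = algebraMap F L a) (ha : ∀ b : F, b ^ p ≠ a) :
    LinearIndependent F (fun j : Fin p => x ^ (j : ℕ)) := by
  have h := linearIndependent_pow (K := F) x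
  have e := minp_natDegree hp hx ha
  exact (linearIndependent_equiv' (finCongr e.symm) (by funext j; simp)).mpr h

theorem root (hp : p.Prime) {ζ : F} (hζ : IsPrimitiveRoot ζ p) (hx : x ^ p = algebraMap F L a)
    (ha : ∀ b : F, b ^ p ≠ a) (b : F⟮x⟯) (hb0 : b ≠ 0) {β : F}
    (hb : (b : L) ^ p = algebraMap F L β) :
    ∃ (lam : F) (j : ℕ), j < p ∧ (b : L) = algebraMap F L lam * x ^ j := by
  have hint := integral hp hx
  have : NeZero p := ⟨hp.ne_zero⟩
  have hgen : (adjoin.powerBasis hint).gen = AdjoinSimple.gen F x := adjoin.powerBasis_gen hint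
  have hdim : (adjoin.powerBasis hint).dim = p := by
    rw [adjoin.powerBasis_dim, minp_natDegree hp hx ha]
  obtain ⟨f, hfdeg, hf⟩ := (adjoin.powerBasis hint).exists_eq_aeval b
  rw [hdim] at hfdeg
  rw [hgen] at hf
  have hroot : aeval (algebraMap F L ζ * x) (minpoly F (adjoin.powerBasis hint).gen) = 0 := by
    rw [hgen, minpoly_gen, minp hp hx ha, map_sub, map_pow, aeval_X, aeval_C, mul_pow, hx,
      ← map_pow, hζ.pow_eq_one, map_one, one_mul, sub_self]
  let σ : F⟮x⟯ →ₐ[F] L := (adjoin.powerBasis hint).lift (algebraMap F L ζ * x) hroot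
  have hσgen : σ (AdjoinSimple.gen F x) = algebraMap F L ζ * x := by
    rw [← hgen]
    exact (adjoin.powerBasis hint).lift_gen _ _
  have hσb : σ b = aeval (algebraMap F L ζ * x) f := by
    rw [hf, ← aeval_algHom_apply, hσgen]
  have hbx : (b : L) = aeval x f := by
    have h1 : (F⟮x⟯).val b = aeval x f := by
      rw [hf, ← aeval_algHom_apply]
      simp
    exact h1
  have hbL : (b : L) ≠ 0 := by
    intro h; exact hb0 (Subtype.ext h)
  have hbp : b ^ p = algebraMap F F⟮x⟯ β := by
    apply Subtype.ext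
    simpa using hb
  have hσp : (σ b) ^ p = (b : L) ^ p := by
    rw [← map_pow, hbp, AlgHom.commutes, hb]
  have hq : (σ b / (b : L)) ^ p = 1 := by
    rw [div_pow, hσp, div_self (pow_ne_zero _ hbL)]
  have hζL : IsPrimitiveRoot (algebraMap F L ζ) p := hζ.map_of_injective (algebraMap F L).injective
  obtain ⟨i, hi, hζi⟩ := hζL.eq_pow_of_pow_eq_one hq
  have hσb2 : σ b = algebraMap F L ζ ^ i * (b : L) := by
    rw [hζi, div_mul_cancel₀ _ hbL]
  -- the polynomial
  have hg : f.comp (C ζ * X) - C (ζ ^ i) * f = 0 := by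
    by_contra hne
    have h1 : aeval x (f.comp (C ζ * X) - C (ζ ^ i) * f) = 0 := by
      rw [map_sub, aeval_comp, map_mul, map_mul, aeval_C, aeval_C, aeval_X, ← hσb, hσb2, hbx,
        map_pow, sub_self]
    have h2 := natDegree_le_of_dvd (minpoly.dvd F x h1) hne
    rw [minp_natDegree hp hx ha] at h2
    have h3 : (f.comp (C ζ * X) - C (ζ ^ i) * f).natDegree < p := by
      refine lt_of_le_of_lt (natDegree_sub_le _ _) (max_lt ?_ ?_)
      · refine lt_of_le_of_lt natDegree_comp_le ?_
        have hdX : (C ζ * X).natDegree ≤ 1 :=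
          (natDegree_C_mul_le _ _).trans natDegree_X_le
        refine lt_of_le_of_lt (Nat.mul_le_mul_left _ hdX) ?_
        simpa using hfdeg
      · exact lt_of_le_of_lt (natDegree_C_mul_le _ _) hfdeg
    omega
  have hcoef : ∀ j, j ≠ i → f.coeff j = 0 := by
    intro j hj
    by_cases hjp : j < p
    · have h1 := congrArg (fun g => coeff g j) hg
      simp only [coeff_sub, comp_C_mul_X_coeff, coeff_C_mul, coeff_zero] at h1
      have h2 : f.coeff j * (ζ ^ j - ζ ^ i) = 0 := by linear_combination h1
      rcases mul_eq_zero.mp h2 with h | h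
      · exact h
      · exact absurd (hζ.pow_inj hjp hi (sub_eq_zero.mp h)) hj
    · exact coeff_eq_zero_of_natDegree_lt (by omega)
  have hmono : f = monomial i (f.coeff i) := by
    ext j
    rw [coeff_monomial]
    split_ifs with h
    · rw [h]
    · exact hcoef j (fun h' => h h'.symm)
  refine ⟨f.coeff i, i, hi, ?_⟩
  rw [hbx, hmono, aeval_monomial, coeff_monomial, if_pos rfl]

end one

universe v

theorem main {L : Type v} [Field L] {p : ℕ} (hp : p.Prime) : ∀ (n : ℕ) (F : Type v) [Field F]
    [Algebra F L] {ζ : F} (_ : IsPrimitiveRoot ζ p) (a : Fin n → F) (x : Fin n → L)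
    (_ : ∀ i, a i ≠ 0) (_ : ∀ i, x i ^ p = algebraMap F L (a i))
    (_ : ∀ e : Fin n → ℕ, (∃ b : F, ∏ i, a i ^ e i = b ^ p) → ∀ i, p ∣ e i),
    LinearIndependent F (fun r : Fin n → Fin p => ∏ i, x i ^ (r i : ℕ)) := by
  intro n
  induction n with
  | zero =>
    intro F _ _ ζ hζ a x ha hx hind
    rw [Fintype.linearIndependent_iff]
    intro g hg r
    have h1 : g r = 0 := by
      have : (Finset.univ : Finset (Fin 0 → Fin p)) = {r} := by
        ext s
        rw [Finset.mem_singleton]
        exact iff_of_true (Finset.mem_univ s) (Subsingleton.elim s r)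
      rw [this] at hg
      simpa using hg
    exact h1
  | succ n ih =>
    intro F _ _ ζ hζ a x ha hx hind
    have ha0 : ∀ b : F, b ^ p ≠ a 0 := by
      intro b hb
      have h1 := hind (Fin.cons 1 (fun _ => 0)) ⟨b, by
        rw [Fin.prod_univ_succ]
        simp only [Fin.cons_zero, Fin.cons_succ, pow_one, pow_zero, Finset.prod_const_one, mul_one]
        exact hb.symm⟩ 0
      rw [Fin.cons_zero] at h1
      exact hp.one_lt.ne' (Nat.dvd_one.mp h1)
    have hx0 := hx 0
    have h1 := indep hp hx0 ha0
    let F' := F⟮x 0⟯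
    let g : F' := AdjoinSimple.gen F (x 0)
    have hg : (g : L) = x 0 := AdjoinSimple.coe_gen F (x 0)
    have h2 : LinearIndependent F (fun j : Fin p => g ^ (j : ℕ)) := by
      refine LinearIndependent.of_comp (F').val.toLinearMap ?_
      have : ((F').val.toLinearMap ∘ fun j : Fin p => g ^ (j : ℕ)) =
          fun j : Fin p => x 0 ^ (j : ℕ) := by
        funext j
        show ((g ^ (j : ℕ) : F') : L) = _
        rw [SubmonoidClass.coe_pow, hg]
      rw [this]
      exact h1
    have h3 : LinearIndependent F' (fun r : Fin n → Fin p => ∏ i, x i.succ ^ (r i : ℕ)) := by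
      refine ih F' (ζ := algebraMap F F' ζ) (hζ.map_of_injective (algebraMap F F').injective)
        (fun i => algebraMap F F' (a i.succ)) (fun i => x i.succ) ?_ ?_ ?_
      · intro i
        exact (_root_.map_ne_zero _).mpr (ha i.succ)
      · intro i
        rw [hx i.succ]
        rfl
      · intro e he i
        obtain ⟨b, hb⟩ := he
        have hb' : (b : L) ^ p = algebraMap F L (∏ i : Fin n, a i.succ ^ e i) := by
          have h6 : (∏ i : Fin n, algebraMap F F' (a i.succ) ^ e i) =
              algebraMap F F' (∏ i : Fin n, a i.succ ^ e i) := by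
            rw [map_prod]; simp only [map_pow]
          rw [h6] at hb
          have h7 := congrArg (fun z : F' => (z : L)) hb
          exact h7.symm
        have hprod : (∏ i : Fin n, a i.succ ^ e i) ≠ 0 :=
          Finset.prod_ne_zero_iff.mpr fun i _ => pow_ne_zero _ (ha i.succ)
        have hb0 : b ≠ 0 := by
          intro h
          rw [h] at hb'
          rw [ZeroMemClass.coe_zero, zero_pow hp.ne_zero] at hb'
          exact (_root_.map_ne_zero (algebraMap F L)).mpr hprod hb'.symm
        obtain ⟨lam, j, hj, hbj⟩ := root hp hζ hx0 ha0 b hb0 hb'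
        rw [hbj, mul_pow, ← pow_mul, mul_comm j p, pow_mul, hx0, ← map_pow, ← map_pow,
          ← map_mul] at hb'
        have h4 := (algebraMap F L).injective hb'
        have h5 := hind (Fin.cons (p - j) e) ⟨lam * a 0, by
          rw [Fin.prod_univ_succ]
          simp only [Fin.cons_zero, Fin.cons_succ]
          rw [← h4, mul_pow]
          have : a 0 ^ p = a 0 ^ (p - j) * a 0 ^ j := by
            rw [← pow_add]; congr 1; omega
          rw [this]; ring⟩ i.succ
        rwa [Fin.cons_succ] at h5
    have h4 := linearIndependent_smul h2 h3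
    let e : (Fin (n + 1) → Fin p) ≃ Fin p × (Fin n → Fin p) :=
      (Fin.consEquiv (fun _ => Fin p)).symm
    have h5 := h4.comp e e.injective
    convert h5 using 1
    funext r
    rw [Fin.prod_univ_succ]
    show _ = (g ^ ((r 0 : Fin p) : ℕ)) • (∏ i : Fin n, x i.succ ^ (r i.succ : ℕ))
    rw [← hg]
    rfl

end KL

theorem kummer_indep {F L : Type*} [Field F] [Field L] [Algebra F L] {p : ℕ} (hp : p.Prime)
    {ζ : F} (hζ : IsPrimitiveRoot ζ p) {n : ℕ} (a : Fin n → F) (x : Fin n → L)
    (ha : ∀ i, a i ≠ 0) (hx : ∀ i, x i ^ p = algebraMap F L (a i))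
    (hind : ∀ e : Fin n → ℕ, (∃ b : F, ∏ i, a i ^ e i = b ^ p) → ∀ i, p ∣ e i) :
    LinearIndependent F (fun r : Fin n → Fin p => ∏ i, x i ^ (r i : ℕ)) := by
  let B := (⊥ : IntermediateField F L)
  have hinj : Function.Injective (algebraMap F B) := (algebraMap F B).injective
  have hsurj : Function.Surjective (algebraMap F B) := by
    rintro ⟨b, hb⟩
    obtain ⟨c, rfl⟩ := IntermediateField.mem_bot.mp hb
    exact ⟨c, rfl⟩
  have h := KL.main hp n B (ζ := algebraMap F B ζ) (hζ.map_of_injective hinj)
    (fun i => algebraMap F B (a i)) x (fun i => (_root_.map_ne_zero _).mpr (ha i))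
    (fun i => by rw [hx i]; rfl) (fun e he => by
      obtain ⟨b, hb⟩ := he
      obtain ⟨c, rfl⟩ := hsurj b
      refine hind e ⟨c, hinj ?_⟩
      rw [map_prod, map_pow, ← hb]
      simp)
  exact h.restrict_scalars' F

end Pool.Agent.helper97.BG
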