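import Pool.Agent.helper97.BG.PD
import Pool.Agent.helper88.BG.KL
import Pool.Agent.helper38.BG.KC
import Pool.Agent.helper81.BG.CL

/-!
# Independence of the standard monomials (module IT of MP_c563ae_ag)
-/

namespace Pool.Agent.helper97.BG

namespace IT

/-- powers of algebraically independent elements -/
theorem algInd_pow {ι R A : Type*} [CommRing R] [CommRing A] [Algebra R A] {x : ι → A}
    (hx : AlgebraicIndependent R x) {n : ℕ} (hn : 0 < n) :
    AlgebraicIndependent R (fun i => x i ^ n) := by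
  rw [algebraicIndependent_iff_injective_aeval] at hx ⊢
  have h : (MvPolynomial.aeval (fun i => x i ^ n) : MvPolynomial ι R →ₐ[R] A) =
      (MvPolynomial.aeval x).comp (MvPolynomial.expand n) := by
    ext i
    simp
  rw [h]
  exact hx.comp (MvPolynomial.expand_injective hn)

/-- the general step: fifth roots over a field generated by a pentagon -/
theorem gen {k K : Type*} [Field k] [Field K] [Algebra k K] [IsAlgClosed k] (h5 : (5 : k) ≠ 0)
    (F : IntermediateField k K) (V : Fin 5 → K) (y : K) (u : Fin 5 → F)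
    (hVu : ∀ i, V i ^ 5 = u i) (hu : ∀ i, u i + u (i + 2) * u (i + 3) = 1)
    (hind : AlgebraicIndependent k ![u 0, u 1]) (hgen : IntermediateField.adjoin k {u 0, u 1} = ⊤)
    {c : Fin 5 → k} (hc : KumCond c)
    (hy : y ^ 5 = ((∑ i, algebraMap k F (c i) * u i : F) : K)) :
    LinearIndependent k
      (fun s : {q : Fin 5 → ℕ // ∀ i, q i = 0 ∨ q (i + 1) = 0} × (Fin 6 → Fin 5) =>
        (∏ i, u i ^ s.1.1 i) • (∏ i, (Fin.cons y V : Fin 6 → K) i ^ (s.2 i : ℕ))) := by
  have h1 := cluster_indep u hu hind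
  have hkum := fun e e' b h => kum_ind u hu hind hgen hc e e' b h
  have hu0 : ∀ i, u i ≠ 0 := by
    intro i hi
    have h2 := (hkum (Pi.single i 1) 0 0 (by
      rw [pow_zero, mul_one, zero_pow (by norm_num)]
      refine Finset.prod_eq_zero (Finset.mem_univ i) ?_
      rw [Pi.single_eq_same, pow_one, hi])).1 i
    rw [Pi.single_eq_same] at h2
    omega
  have hg0 : (∑ i, algebraMap k F (c i) * u i) ≠ 0 := by
    intro hg
    have h2 := (hkum 0 1 0 (by
      rw [hg]
      simp)).2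
    omega
  have : NeZero (5 : k) := ⟨h5⟩
  obtain ⟨ζ, hζ⟩ := HasEnoughRootsOfUnity.exists_primitiveRoot k 5
  have hζF : IsPrimitiveRoot (algebraMap k F ζ) 5 := hζ.map_of_injective (algebraMap k F).injective
  have h3 := kummer_indep (F := F) (L := K) (p := 5) (by norm_num) hζF
    (Fin.cons (∑ i, algebraMap k F (c i) * u i) u : Fin 6 → F) (Fin.cons y V : Fin 6 → K)
    (by
      intro i
      refine Fin.cases ?_ ?_ i
      · exact hg0
      · exact hu0)
    (by
      intro i
      refine Fin.cases ?_ ?_ i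
      · exact hy
      · exact hVu)
    (by
      rintro e ⟨b, hb⟩ i
      rw [Fin.prod_univ_succ] at hb
      simp only [Fin.cons_zero, Fin.cons_succ] at hb
      have h4 := hkum (fun i => e i.succ) (e 0) b (by rw [← hb]; ring)
      refine Fin.cases ?_ ?_ i
      · exact h4.2
      · exact h4.1)
  have h4 := @linearIndependent_smul k F K _ _ _ _ _ _ _ _ _ _ _ h1 h3
  exact h4

end IT

theorem PD.std_indep {k K : Type*} [Field k] [Field K] [Algebra k K] [IsAlgClosed k]
    (h5 : (5 : k) ≠ 0) (d : PD k K) (hc : KumCond d.c) :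
    LinearIndependent k
      (fun s : {n : Fin 5 → ℕ // Std n} × Fin 5 => d.mon s.1.1 * d.y ^ (s.2 : ℕ)) := by
  classical
  have hV0 : Transcendental k (d.V 0) := by
    have := d.ind.transcendental 0
    exact this
  have hne3 : d.V 3 ^ 5 ≠ 0 := by
    intro h
    have h1 := d.rel 0
    have e3 : (0 : Fin 5) + 3 = 3 := rfl
    rw [e3, h, mul_zero, add_zero] at h1
    refine hV0 ?_
    refine IsAlgebraic.of_pow (n := 5) (by norm_num) ?_
    rw [h1]
    exact isAlgebraic_one
  let F := IntermediateField.adjoin k {d.V 0 ^ 5, d.V 1 ^ 5}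
  have hF0 : d.V 0 ^ 5 ∈ F := IntermediateField.subset_adjoin _ _ (by simp)
  have hF1 : d.V 1 ^ 5 ∈ F := IntermediateField.subset_adjoin _ _ (by simp)
  have hF3 : d.V 3 ^ 5 ∈ F := by
    have h := d.rel 3
    have e1 : (3 : Fin 5) + 2 = 0 := rfl
    have e2 : (3 : Fin 5) + 3 = 1 := rfl
    rw [e1, e2] at h
    rw [eq_sub_of_add_eq h]
    exact F.sub_mem F.one_mem (F.mul_mem hF0 hF1)
  have hF2 : d.V 2 ^ 5 ∈ F := by
    have h := d.rel 0
    have e1 : (0 : Fin 5) + 2 = 2 := rfl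
    have e2 : (0 : Fin 5) + 3 = 3 := rfl
    rw [e1, e2] at h
    have h' : d.V 2 ^ 5 = (1 - d.V 0 ^ 5) / d.V 3 ^ 5 := by
      rw [eq_div_iff hne3]; linear_combination h
    rw [h']
    exact F.div_mem (F.sub_mem F.one_mem hF0) hF3
  have hF4 : d.V 4 ^ 5 ∈ F := by
    have h := d.rel 1
    have e1 : (1 : Fin 5) + 2 = 3 := rfl
    have e2 : (1 : Fin 5) + 3 = 4 := rfl
    rw [e1, e2] at h
    have h' : d.V 4 ^ 5 = (1 - d.V 1 ^ 5) / d.V 3 ^ 5 := by
      rw [eq_div_iff hne3]; linear_combination h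
    rw [h']
    exact F.div_mem (F.sub_mem F.one_mem hF1) hF3
  have hF : ∀ i, d.V i ^ 5 ∈ F := by
    intro i
    fin_cases i
    · exact hF0
    · exact hF1
    · exact hF2
    · exact hF3
    · exact hF4
  let u : Fin 5 → F := fun i => ⟨d.V i ^ 5, hF i⟩
  have hu : ∀ i, u i + u (i + 2) * u (i + 3) = 1 := fun i => Subtype.ext (d.rel i)
  have hind : AlgebraicIndependent k ![u 0, u 1] := by
    rw [← AlgHom.algebraicIndependent_iff F.val F.val.injective]
    have h1 := IT.algInd_pow d.ind (n := 5) (by norm_num)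
    convert h1 using 1
    funext i
    fin_cases i <;> rfl
  have hgen : IntermediateField.adjoin k {u 0, u 1} = ⊤ := by
    apply IntermediateField.map_injective F.val
    rw [IntermediateField.adjoin_map, Set.image_pair, ← AlgHom.fieldRange_eq_map,
      IntermediateField.fieldRange_val]
    rfl
  have hy : d.y ^ 5 = ((∑ i, algebraMap k F (d.c i) * u i : F) : K) := by
    rw [d.yrel]
    have : ((∑ i, algebraMap k F (d.c i) * u i : F) : K) =
        F.val (∑ i, algebraMap k F (d.c i) * u i) := rfl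
    rw [this, map_sum]
    rfl
  have h := IT.gen h5 F d.V d.y u (fun i => rfl) hu hind hgen hc hy
  let φ : {n : Fin 5 → ℕ // Std n} × Fin 5 →
      {q : Fin 5 → ℕ // ∀ i, q i = 0 ∨ q (i + 1) = 0} × (Fin 6 → Fin 5) := fun s =>
    (⟨fun i => s.1.1 i / 5, fun i => (s.1.2 i).imp (fun h => Nat.div_eq_of_lt h)
      (fun h => Nat.div_eq_of_lt h)⟩,
      Fin.cons s.2 (fun i => ⟨s.1.1 i % 5, Nat.mod_lt _ (by norm_num)⟩))
  have hφ : Function.Injective φ := by
    rintro ⟨⟨n, hn⟩, b⟩ ⟨⟨n', hn'⟩, b'⟩ heq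
    have h1 := congrArg (fun z => z.1.1) heq
    have h2 := congrArg (fun z => z.2) heq
    simp only [φ] at h1 h2
    rw [Fin.cons_inj] at h2
    have h3 : n = n' := by
      funext i
      have h4 := congrFun h1 i
      have h5 := congrArg Fin.val (congrFun h2.2 i)
      simp only at h4 h5
      omega
    subst h3
    rw [h2.1]
  convert h.comp φ hφ using 1
  funext s
  have h8 : (∏ x : Fin 6, (Fin.cons d.y d.V : Fin 6 → K) x ^ (((φ s).2 x : Fin 5) : ℕ)) =
      d.y ^ (s.2 : ℕ) * ∏ i, d.V i ^ (s.1.1 i % 5) := by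
    rw [Fin.prod_univ_succ]
    rfl
  show d.mon s.1.1 * d.y ^ (s.2 : ℕ) = (∏ i, u i ^ ((φ s).1.1 i)) • (∏ x : Fin 6,
    (Fin.cons d.y d.V : Fin 6 → K) x ^ (((φ s).2 x : Fin 5) : ℕ))
  rw [h8]
  have h6 : (∏ i, u i ^ (s.1.1 i / 5)) • (d.y ^ (s.2 : ℕ) * ∏ i, d.V i ^ (s.1.1 i % 5)) =
      (∏ i, (d.V i ^ 5) ^ (s.1.1 i / 5)) * (d.y ^ (s.2 : ℕ) * ∏ i, d.V i ^ (s.1.1 i % 5)) := by
    rw [Algebra.smul_def]
    congr 1
  refine Eq.trans ?_ h6.symm
  have h7 : d.mon s.1.1 = (∏ i, (d.V i ^ 5) ^ (s.1.1 i / 5)) * ∏ i, d.V i ^ (s.1.1 i % 5) := by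
    unfold PD.mon
    rw [← Finset.prod_mul_distrib]
    refine Finset.prod_congr rfl fun i _ => ?_
    rw [← pow_mul, ← pow_add, Nat.div_add_mod]
  rw [h7]
  ring

end Pool.Agent.helper97.BG
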